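import Pool.Agent.helper43.BMH.Spec

/-!
# MP_cef0b4_gt, row bmh:RTM
-/

set_option autoImplicit false

namespace Pool.Agent.helper43.BMH

theorem RTM_abs (u : ℤˣ) : |((u : ℤˣ) : ℤ)| ≤ 1 := by
  rcases Int.units_eq_one_or u with h | h
  · rw [h]; norm_num
  · rw [h]; norm_num

theorem RTM_spt {ι : Type} [Fintype ι] (x y : ι → ℤˣ) :
    spt (fun i => if x i = y i then ((x i : ℤˣ) : ℤ) else 0) =
      (Finset.univ.filter fun i => x i = y i).card := by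
  unfold spt
  refine congrArg Finset.card (Finset.filter_congr fun i _ => ?_)
  by_cases h : x i = y i
  · simp only [h, if_true, iff_true]
    exact Units.ne_zero (y i)
  · simp only [h, if_false, iff_false, not_not]

theorem RTM_sum {ι : Type} [Fintype ι] [DecidableEq ι] [Nonempty ι] (ht : TYS) (he : EXH) :
    ∑ x : ι → ℤˣ, ∑ y : ι → ℤˣ,
      ∏ i, fr (fun i => (((x i : ℤˣ) : ℤ), ((y i : ℤˣ) : ℤ))) (((x i : ℤˣ) : ℤ), ((y i : ℤˣ) : ℤ)) ≤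
    (2 * (Fintype.card ι : ℝ) + 1) ^ 4 := by
  have h1 := ht ι (ℤ × ℤ) (({-1, 1} : Finset ℤ) ×ˢ ({-1, 1} : Finset ℤ))
  have hc : (({-1, 1} : Finset ℤ) ×ˢ ({-1, 1} : Finset ℤ)).card = 4 := by decide
  rw [hc] at h1
  refine le_trans ?_ h1
  rw [← Fintype.sum_prod_type']
  have hinj : Set.InjOn (fun p : (ι → ℤˣ) × (ι → ℤˣ) => (fun i =>
      (((p.1 i : ℤˣ) : ℤ), ((p.2 i : ℤˣ) : ℤ)) : ι → ℤ × ℤ))
      ((Finset.univ : Finset ((ι → ℤˣ) × (ι → ℤˣ))) : Set ((ι → ℤˣ) × (ι → ℤˣ))) := by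
    intro p _ q _ hpq
    have h2 : ∀ i, (((p.1 i : ℤˣ) : ℤ), ((p.2 i : ℤˣ) : ℤ)) = (((q.1 i : ℤˣ) : ℤ), ((q.2 i : ℤˣ) : ℤ)) :=
      fun i => congrFun hpq i
    apply Prod.ext
    · funext i
      exact Units.ext (Prod.mk.inj (h2 i)).1
    · funext i
      exact Units.ext (Prod.mk.inj (h2 i)).2
  have h3 := Finset.sum_image (f := fun f : ι → ℤ × ℤ => ∏ i, fr f (f i)) hinj
  have h4 : ∑ p : (ι → ℤˣ) × (ι → ℤˣ), ∏ i, fr (fun i => (((p.1 i : ℤˣ) : ℤ), ((p.2 i : ℤˣ) : ℤ)))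
      (((p.1 i : ℤˣ) : ℤ), ((p.2 i : ℤˣ) : ℤ)) =
      ∑ f ∈ (Finset.univ : Finset ((ι → ℤˣ) × (ι → ℤˣ))).image (fun p => (fun i =>
      (((p.1 i : ℤˣ) : ℤ), ((p.2 i : ℤˣ) : ℤ)) : ι → ℤ × ℤ)), ∏ i, fr f (f i) := h3.symm
  refine le_trans (le_of_eq h4) ?_
  refine Finset.sum_le_sum_of_subset_of_nonneg ?_ ?_
  · intro f hf
    obtain ⟨p, _, rfl⟩ := Finset.mem_image.mp hf
    rw [Fintype.mem_piFinset]
    intro i
    rw [Finset.mem_product]
    constructor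
    · rcases Int.units_eq_one_or (p.1 i) with h | h <;> simp [h]
    · rcases Int.units_eq_one_or (p.2 i) with h | h <;> simp [h]
  · intro f _ _
    exact Finset.prod_nonneg fun i _ => ((he ι (ℤ × ℤ) f).2.2.1 i).le

theorem t_rtm (he : EXH) (ht : TYS) (hr : RTE) : RTM := by
  intro ι _ _ _ N hN0 hN1 hN2
  have hterm : ∀ x y : ι → ℤˣ,
      N (fun i => if x i = y i then ((x i : ℤˣ) : ℤ) else 0) *
      N (fun i => if x i = y i then 0 else ((x i : ℤˣ) : ℤ)) ≤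
      (∏ i, fr (fun i => (((x i : ℤˣ) : ℤ), ((y i : ℤˣ) : ℤ)))
        (((x i : ℤˣ) : ℤ), ((y i : ℤˣ) : ℤ))) * Real.exp (-(Fintype.card ι : ℝ) / 10) := by
    intro x y
    have hP := (he ι (ℤ × ℤ) (fun i => (((x i : ℤˣ) : ℤ), ((y i : ℤˣ) : ℤ)))).1
    rw [← hP]
    have hz1 : ∀ i, |(fun i => if x i = y i then ((x i : ℤˣ) : ℤ) else 0) i| ≤ 1 := by
      intro i
      by_cases h : x i = y i
      · simp only [if_pos h]; exact RTM_abs _
      · simp only [if_neg h]; norm_num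
    have hz2 : ∀ i, |(fun i => if x i = y i then 0 else ((x i : ℤˣ) : ℤ)) i| ≤ 1 := by
      intro i
      by_cases h : x i = y i
      · simp only [if_pos h]; norm_num
      · simp only [if_neg h]; exact RTM_abs _
    by_cases h0 : N (fun i => if x i = y i then ((x i : ℤˣ) : ℤ) else 0) = 0
    · rw [h0, zero_mul]
      exact mul_nonneg (Real.exp_pos _).le (Real.exp_pos _).le
    · have hs := hN2 _ hz1 h0
      rw [RTM_spt] at hs
      have h1 := hr ι x y hs.1 hs.2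
      have h2 := hN1 _ hz1
      have h3 := hN1 _ hz2
      have h4 := mul_le_mul h2 h3 (hN0 _) (Real.exp_pos _).le
      refine h4.trans ?_
      rw [← Real.exp_add, ← Real.exp_add]
      apply Real.exp_le_exp.mpr
      have hn : (0 : ℝ) ≤ (Fintype.card ι : ℝ) := Nat.cast_nonneg _
      have h5 := mul_le_mul_of_nonneg_left h1 hn
      nlinarith [h5]
  calc _ ≤ ∑ x : ι → ℤˣ, ∑ y : ι → ℤˣ, (∏ i, fr (fun i => (((x i : ℤˣ) : ℤ), ((y i : ℤˣ) : ℤ)))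
        (((x i : ℤˣ) : ℤ), ((y i : ℤˣ) : ℤ))) * Real.exp (-(Fintype.card ι : ℝ) / 10) :=
        Finset.sum_le_sum fun x _ => Finset.sum_le_sum fun y _ => hterm x y
    _ = (∑ x : ι → ℤˣ, ∑ y : ι → ℤˣ, ∏ i, fr (fun i => (((x i : ℤˣ) : ℤ), ((y i : ℤˣ) : ℤ)))
        (((x i : ℤˣ) : ℤ), ((y i : ℤˣ) : ℤ))) * Real.exp (-(Fintype.card ι : ℝ) / 10) := by
        rw [Finset.sum_mul]
        exact Finset.sum_congr rfl fun x _ => (Finset.sum_mul _ _ _).symm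
    _ ≤ _ := mul_le_mul_of_nonneg_right (RTM_sum ht he) (Real.exp_pos _).le

end Pool.Agent.helper43.BMH
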